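import Pool.Agent.Helper58.SF.StN

/-!
# Project SF (MP_a45945_gt), module JS2: joint cut of a pair of cells with given cuts
-/

set_option autoImplicit false

namespace Pool.Agent.Helper81.SF

open Set Topology Pool.Agent.Helper13.TR Pool.Agent.Helper58.SF
open Pool.Agent.Helper13.TW (IsArc Spl IsSCC dch Chn Splt GT CSy MP Val LR MCell StARB StARX StSCL
  StUAR StINF StLIN StAC1 StSDM StLRC StBF StMD1 StMD2 StMD3)

private theorem arc_closed {X : Type} [MetricSpace X] {P : Set X} {p q : X} (h : IsArc P p q) :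
    IsClosed P := by
  obtain ⟨γ, -, hγ⟩ := h
  rw [← hγ]
  exact (isCompact_range γ.continuous).isClosed

theorem hJS2 : StJS2 := by
  intro X X' _ _ cell cell' _ _ M hM p q D₁ D₂ P E₁ E₂ p' q' D₁' D₂' P' E₁' E₂' f hS hc1 hc2 hS' hc1'
    hc2' hp hq hi1 hi2 fc fi fim fp fq
  obtain ⟨hMc, hMc', hcont, hinj, him⟩ := hM
  obtain ⟨hSpl, hP, hPJ, hE, hEP, hE1, hE2⟩ := hS
  obtain ⟨a1, a2, hD, hU⟩ := hSpl
  have s1 : D₁ ⊆ M.J := hU ▸ subset_union_left
  have s2 : D₂ ⊆ M.J := hU ▸ subset_union_right
  have hpP : p ∈ P := by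
    have : p ∈ P ∩ M.J := by rw [hPJ]; exact Or.inl rfl
    exact this.1
  have hqP : q ∈ P := by
    have : q ∈ P ∩ M.J := by rw [hPJ]; exact Or.inr rfl
    exact this.1
  have hpJ : p ∈ M.J := by
    have : p ∈ P ∩ M.J := by rw [hPJ]; exact Or.inl rfl
    exact this.2
  have hqJ : q ∈ M.J := by
    have : q ∈ P ∩ M.J := by rw [hPJ]; exact Or.inr rfl
    exact this.2
  obtain ⟨-, hP', hPJ', hE', hEP', hE1', hE2'⟩ := hS'
  classical
  obtain ⟨g, hgP, hgJ⟩ : ∃ g : X → X', (∀ x ∈ P, g x = f x) ∧ ∀ x ∈ M.J, g x = M.h x := by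
    refine ⟨fun x => if x ∈ P then f x else M.h x, fun x hx => if_pos hx, fun x hx => ?_⟩
    by_cases hxP : x ∈ P
    · have : x ∈ ({p, q} : Set X) := by rw [← hPJ]; exact ⟨hxP, hx⟩
      simp only [hxP, if_true]
      rcases this with h | h
      · rw [h, fp, hp]
      · rw [mem_singleton_iff.1 h, fq, hq]
    · simp only [hxP, if_false]
  have gi : ∀ x ∈ M.J ∪ P, ∀ y ∈ M.J ∪ P, g x = g y → x = y := by
    have key : ∀ x ∈ P, ∀ y ∈ M.J, g x = g y → x = y := by
      intro x hx y hy h
      rw [hgP x hx, hgJ y hy] at h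
      have h1 : f x ∈ P' ∩ M.J' := by
        refine ⟨fim ▸ mem_image_of_mem f hx, ?_⟩
        rw [h, ← him]
        exact mem_image_of_mem _ hy
      rw [hPJ'] at h1
      rcases h1 with h1 | h1
      · have e1 : x = p := fi hx hpP (h1.trans fp.symm)
        have e2 : y = p := hinj hy hpJ (h.symm.trans (h1.trans hp.symm))
        rw [e1, e2]
      · have e1 : x = q := fi hx hqP ((mem_singleton_iff.1 h1).trans fq.symm)
        have e2 : y = q := hinj hy hqJ (h.symm.trans ((mem_singleton_iff.1 h1).trans hq.symm))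
        rw [e1, e2]
    intro x hx y hy h
    rcases hx with hx | hx
    · rcases hy with hy | hy
      · rw [hgJ x hx, hgJ y hy] at h
        exact hinj hx hy h
      · exact (key y hy x hx h.symm).symm
    · rcases hy with hy | hy
      · exact key x hx y hy h
      · rw [hgP x hx, hgP y hy] at h
        exact fi hx hy h
  have cP : IsClosed P := arc_closed hP
  have gP : g '' P = P' := by
    rw [← fim]
    exact image_congr hgP
  have gcP : ContinuousOn g P := fc.congr hgP
  have vv : ∀ (D : Set X), D ⊆ M.J → IsClosed D → ContinuousOn g (D ∪ P) ∧ InjOn g (D ∪ P) ∧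
      g '' (D ∪ P) = M.h '' D ∪ P' := by
    intro D hDJ hDc
    refine ⟨?_, ?_, ?_⟩
    · exact ContinuousOn.union_of_isClosed ((hcont.mono hDJ).congr fun x hx => hgJ x (hDJ hx)) gcP hDc cP
    · intro x hx y hy h
      exact gi x (union_subset_union_left P hDJ hx) y (union_subset_union_left P hDJ hy) h
    · rw [image_union, gP]
      congr 1
      exact image_congr fun x hx => hgJ x (hDJ hx)
  have c1 : IsClosed D₁ := arc_closed a1
  have c2 : IsClosed D₂ := arc_closed a2
  obtain ⟨v1, v2, v3⟩ := vv D₁ s1 c1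
  obtain ⟨w1, w2, w3⟩ := vv D₂ s2 c2
  have sub1 : D₁ ∪ P ⊆ M.J ∪ P := union_subset_union_left P s1
  have sub2 : D₂ ∪ P ⊆ M.J ∪ P := union_subset_union_left P s2
  rw [hi1] at v3
  rw [hi2] at w3
  refine ⟨g, hgP, hgJ, ?_⟩
  refine ⟨toFinite _, ?_, ?_, ?_, ?_, ?_, ?_, ?_, ?_, ?_, ?_, ?_⟩
  · intro N hN
    rcases hN with h | h
    · rw [h]
      exact ⟨hc1, hc1', v1, v2, v3⟩
    · rw [mem_singleton_iff.1 h]
      exact ⟨hc2, hc2', w1, w2, w3⟩
  · rw [biUnion_pair]
    exact hE
  · rw [biUnion_pair]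
    exact hE'
  · intro N hN N' hN' hne
    rcases hN with h | h <;> rcases hN' with h' | h'
    · exact absurd (h.trans h'.symm) hne
    · rw [h, mem_singleton_iff.1 h']
      simp only
      rw [hEP]
      exact fun x hx => ⟨Or.inr hx, Or.inr hx⟩
    · rw [mem_singleton_iff.1 h, h']
      simp only
      rw [inter_comm, hEP]
      exact fun x hx => ⟨Or.inr hx, Or.inr hx⟩
    · exact absurd ((mem_singleton_iff.1 h).trans (mem_singleton_iff.1 h').symm) hne
  · intro N hN N' hN' hne
    rcases hN with h | h <;> rcases hN' with h' | h'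
    · exact absurd (h.trans h'.symm) hne
    · rw [h, mem_singleton_iff.1 h']
      simp only
      rw [hEP']
      exact fun x hx => ⟨Or.inr hx, Or.inr hx⟩
    · rw [mem_singleton_iff.1 h, h']
      simp only
      rw [inter_comm, hEP']
      exact fun x hx => ⟨Or.inr hx, Or.inr hx⟩
    · exact absurd ((mem_singleton_iff.1 h).trans (mem_singleton_iff.1 h').symm) hne
  · intro N hN N' hN' x _
    rcases hN with h | h <;> rcases hN' with h' | h'
    · rw [h, h']
    · rw [h, mem_singleton_iff.1 h']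
    · rw [mem_singleton_iff.1 h, h']
    · rw [mem_singleton_iff.1 h, mem_singleton_iff.1 h']
  · intro N hN N' hN' x hx y hy hxy
    rcases hN with h | h <;> rcases hN' with h' | h'
    · rw [h] at hx hxy
      rw [h'] at hy hxy
      exact gi x (sub1 hx) y (sub1 hy) hxy
    · rw [h] at hx hxy
      rw [mem_singleton_iff.1 h'] at hy hxy
      exact gi x (sub1 hx) y (sub2 hy) hxy
    · rw [mem_singleton_iff.1 h] at hx hxy
      rw [h'] at hy hxy
      exact gi x (sub2 hx) y (sub1 hy) hxy
    · rw [mem_singleton_iff.1 h] at hx hxy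
      rw [mem_singleton_iff.1 h'] at hy hxy
      exact gi x (sub2 hx) y (sub2 hy) hxy
  · intro N hN
    rcases hN with h | h
    · rw [h]
      simp only
      rw [hE1]
      exact subset_union_left
    · rw [mem_singleton_iff.1 h]
      simp only
      rw [hE2]
      exact subset_union_left
  · intro N hN
    rcases hN with h | h
    · rw [h]
      simp only
      rw [hE1']
      exact subset_union_left
    · rw [mem_singleton_iff.1 h]
      simp only
      rw [hE2']
      exact subset_union_left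
  · intro N hN x hx
    rcases hN with h | h
    · rw [h] at hx ⊢
      exact hgJ x hx.2
    · rw [mem_singleton_iff.1 h] at hx ⊢
      exact hgJ x hx.2
  · intro N hN x hx y hy hxy
    rcases hN with h | h
    · rw [h] at hx hxy
      exact gi x (sub1 hx) y (Or.inl hy) (hxy.trans (hgJ y hy).symm)
    · rw [mem_singleton_iff.1 h] at hx hxy
      exact gi x (sub2 hx) y (Or.inl hy) (hxy.trans (hgJ y hy).symm)

end Pool.Agent.Helper81.SF
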